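import Mathlib

/-!
# A disconnected fibre of a step function moment map

For `k = 2` and `A = {1, 2, 3}` the fibre over `(51/140, 439/2100, 843/5600)` is disconnected: it
contains the step functions with break points `(1/10, 1/5)` and `(1/2, 3/4)`, and no point of it
has first break point `3/10`.
-/

namespace Pool.Agent.Results.MP_db617b_an.NotConnected

/-- `s₀ = 0, s₁, …, s_k, s_{k+1} = 1` -/
def node {k : ℕ} (s : Fin k → ℝ) : Fin (k + 2) → ℝ :=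
  Fin.cons (α := fun _ => ℝ) 0 (Fin.snoc (α := fun _ => ℝ) s 1)

/-- the polytope of pairs `(s, w)` -/
def P (k : ℕ) : Set ((Fin k → ℝ) × (Fin (k + 1) → ℝ)) :=
  {x | (∀ i, 0 ≤ x.1 i) ∧ Monotone x.1 ∧ (∀ i, x.1 i ≤ 1) ∧ (∀ i, 0 ≤ x.2 i) ∧ ∑ i, x.2 i = 1}

/-- the `a`-th moment `∑ᵢ wᵢ (sᵢᵃ + sᵢᵃ⁻¹ sᵢ₋₁ + ⋯ + sᵢ₋₁ᵃ) / (a + 1)` -/
noncomputable def moment {k : ℕ} (x : (Fin k → ℝ) × (Fin (k + 1) → ℝ)) (a : ℕ) : ℝ :=
  ∑ i : Fin (k + 1), x.2 i *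
    ((∑ j ∈ Finset.range (a + 1), node x.1 i.succ ^ (a - j) * node x.1 i.castSucc ^ j) / (a + 1))

/-- the fibre of the moment map `μ_A` over `m` -/
def fibre (k : ℕ) (A : Finset ℕ) (m : A → ℝ) : Set ((Fin k → ℝ) × (Fin (k + 1) → ℝ)) :=
  {x | x ∈ P k ∧ (fun a : A => moment x a) = m}

theorem node_two (s : Fin 2 → ℝ) : node s 0 = 0 ∧ node s 1 = s 0 ∧ node s 2 = s 1 ∧
    node s 3 = 1 := by
  refine ⟨rfl, rfl, rfl, rfl⟩

theorem moment_two (x : (Fin 2 → ℝ) × (Fin 3 → ℝ)) :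
    moment x 1 = x.2 0 * (x.1 0 / 2) + x.2 1 * ((x.1 1 + x.1 0) / 2) +
      x.2 2 * ((1 + x.1 1) / 2) ∧
    moment x 2 = x.2 0 * (x.1 0 ^ 2 / 3) +
      x.2 1 * ((x.1 1 ^ 2 + x.1 1 * x.1 0 + x.1 0 ^ 2) / 3) +
      x.2 2 * ((1 + x.1 1 + x.1 1 ^ 2) / 3) ∧
    moment x 3 = x.2 0 * (x.1 0 ^ 3 / 4) +
      x.2 1 * ((x.1 1 ^ 3 + x.1 1 ^ 2 * x.1 0 + x.1 1 * x.1 0 ^ 2 + x.1 0 ^ 3) / 4) +
      x.2 2 * ((1 + x.1 1 + x.1 1 ^ 2 + x.1 1 ^ 3) / 4) := by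
  obtain ⟨h0, h1, h2, h3⟩ := node_two x.1
  have e0 : (Fin.castSucc (0 : Fin 3)) = (0 : Fin 4) := rfl
  have e1 : (Fin.castSucc (1 : Fin 3)) = (1 : Fin 4) := rfl
  have e2 : (Fin.castSucc (2 : Fin 3)) = (2 : Fin 4) := rfl
  have f0 : (Fin.succ (0 : Fin 3)) = (1 : Fin 4) := rfl
  have f1 : (Fin.succ (1 : Fin 3)) = (2 : Fin 4) := rfl
  have f2 : (Fin.succ (2 : Fin 3)) = (3 : Fin 4) := rfl
  have key : ∀ g : Fin (2 + 1) → ℝ, ∑ i, g i = g 0 + g 1 + g 2 := fun g => Fin.sum_univ_three g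
  refine ⟨?_, ?_, ?_⟩ <;>
  · simp only [moment, Finset.sum_range_succ, Finset.sum_range_zero]
    rw [key, e0, e1, e2, f0, f1, f2, h0, h1, h2, h3]
    norm_num
    try ring

/-- the values of the three moments -/
noncomputable def val (a : ℕ) : ℝ :=
  if a = 1 then 51 / 140 else if a = 2 then 439 / 2100 else 843 / 5600

/-- the first point of the fibre -/
noncomputable def p : (Fin 2 → ℝ) × (Fin 3 → ℝ) := (![1 / 10, 1 / 5], ![0, 11 / 21, 10 / 21])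

/-- the second point of the fibre -/
noncomputable def q : (Fin 2 → ℝ) × (Fin 3 → ℝ) := (![1 / 2, 3 / 4], ![143 / 175, 0, 32 / 175])

theorem mem_fibre (x : (Fin 2 → ℝ) × (Fin 3 → ℝ)) : x ∈ fibre 2 {1, 2, 3} (fun a => val a) ↔
    x ∈ P 2 ∧ moment x 1 = 51 / 140 ∧ moment x 2 = 439 / 2100 ∧ moment x 3 = 843 / 5600 := by
  constructor
  · rintro ⟨h1, h2⟩
    have h3 := congrFun h2 ⟨1, by simp⟩
    have h4 := congrFun h2 ⟨2, by simp⟩
    have h5 := congrFun h2 ⟨3, by simp⟩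
    simp only [val] at h3 h4 h5
    norm_num at h3 h4 h5
    exact ⟨h1, h3, h4, h5⟩
  · rintro ⟨h1, h3, h4, h5⟩
    refine ⟨h1, ?_⟩
    funext a
    obtain ⟨a, ha⟩ := a
    simp only [Finset.mem_insert, Finset.mem_singleton] at ha
    rcases ha with rfl | rfl | rfl
    · rw [show moment x _ = _ from h3]; simp [val]
    · rw [show moment x _ = _ from h4]; simp [val]
    · rw [show moment x _ = _ from h5]; simp [val]

theorem p_mem : p ∈ fibre 2 {1, 2, 3} (fun a => val a) := by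
  rw [mem_fibre]
  obtain ⟨h1, h2, h3⟩ := moment_two p
  refine ⟨⟨?_, ?_, ?_, ?_, ?_⟩, ?_, ?_, ?_⟩
  · intro i; fin_cases i <;> simp [p]
  · intro i j hij
    fin_cases i <;> fin_cases j <;> simp_all [p]
    norm_num
  · intro i; fin_cases i <;> simp [p] <;> norm_num
  · intro i; fin_cases i <;> simp [p] <;> norm_num
  · simp [p, Fin.sum_univ_three]; norm_num
  · rw [h1]; simp [p]; norm_num
  · rw [h2]; simp [p]; norm_num
  · rw [h3]; simp [p]; norm_num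

theorem q_mem : q ∈ fibre 2 {1, 2, 3} (fun a => val a) := by
  rw [mem_fibre]
  obtain ⟨h1, h2, h3⟩ := moment_two q
  refine ⟨⟨?_, ?_, ?_, ?_, ?_⟩, ?_, ?_, ?_⟩
  · intro i; fin_cases i <;> simp [q] <;> norm_num
  · intro i j hij
    fin_cases i <;> fin_cases j <;> simp_all [q]
    norm_num
  · intro i; fin_cases i <;> simp [q] <;> norm_num
  · intro i; fin_cases i <;> simp [q] <;> norm_num
  · simp [q, Fin.sum_univ_three]; norm_num
  · rw [h1]; simp [q]; norm_num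
  · rw [h2]; simp [q]; norm_num
  · rw [h3]; simp [q]; norm_num

/-- no point of the fibre has first break point `3 / 10` -/
theorem gap (x : (Fin 2 → ℝ) × (Fin 3 → ℝ)) (hx : x ∈ fibre 2 {1, 2, 3} (fun a => val a)) :
    x.1 0 ≠ 3 / 10 := by
  intro h
  rw [mem_fibre] at hx
  obtain ⟨⟨h1, h2, h3, h4, h5⟩, hm1, hm2, hm3⟩ := hx
  obtain ⟨g1, g2, g3⟩ := moment_two x
  rw [g1, h] at hm1
  rw [g2, h] at hm2
  rw [g3, h] at hm3
  rw [Fin.sum_univ_three] at h5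
  have h6 : x.1 0 ≤ x.1 1 := h2 (by decide)
  rw [h] at h6
  have h7 : x.2 2 = 1 - x.2 0 - x.2 1 := by linarith
  rw [h7] at hm1 hm2 hm3
  have key : x.1 1 = -19 / 70 := by
    linear_combination (-50) * (4 * hm3 - 3 * (3 / 10 + x.1 1 + 1) * hm2 +
      2 * (3 / 10 + x.1 1 + 3 / 10 * x.1 1) * hm1)
  rw [key] at h6
  norm_num at h6

/-- **Not every fibre of the step function moment maps is connected.** -/
theorem result : ¬ ∀ k : ℕ, 1 ≤ k → ∀ (A : Finset ℕ) (m : A → ℝ),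
    IsPreconnected (fibre k A m) := by
  intro H
  have h := H 2 (by norm_num) {1, 2, 3} (fun a => val a)
  have hc : Continuous (fun x : (Fin 2 → ℝ) × (Fin 3 → ℝ) => x.1 0) := by fun_prop
  have h2 := h.image _ hc.continuousOn
  have h3 := h2.ordConnected
  have hp : (1 / 10 : ℝ) ∈ (fun x : (Fin 2 → ℝ) × (Fin 3 → ℝ) => x.1 0) ''
      fibre 2 {1, 2, 3} (fun a => val a) := ⟨p, p_mem, by simp [p]⟩
  have hq : (1 / 2 : ℝ) ∈ (fun x : (Fin 2 → ℝ) × (Fin 3 → ℝ) => x.1 0) ''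
      fibre 2 {1, 2, 3} (fun a => val a) := ⟨q, q_mem, by simp [q]⟩
  have h4 : (3 / 10 : ℝ) ∈ Set.Icc (1 / 10 : ℝ) (1 / 2) := ⟨by norm_num, by norm_num⟩
  obtain ⟨x, hx, hx'⟩ := h3.out hp hq h4
  exact gap x hx hx'

end Pool.Agent.Results.MP_db617b_an.NotConnected
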